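import Pool.Agent.MP_bd94e8_al.H83A.Cor

/-!
Modules under an unramified extension of the base.
-/

set_option autoImplicit false
set_option linter.unusedSectionVars false
set_option linter.unusedVariables false

namespace Pool.Agent.MP_bd94e8_al.H83A

open Module Function TensorProduct H89 H83

namespace BaseMA

/-- A property of modules that passes to one of the two parts of every splitting. -/
def Spl (R : Type) [Ring R] (T : ∀ (Y : Type) [AddCommGroup Y] [Module R Y], Prop) : Prop :=
  (∀ (Y : Type) [AddCommGroup Y] [Module R Y], T Y → Nontrivial Y) ∧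
  ∀ (U V W : Type) [AddCommGroup U] [Module R U] [AddCommGroup V] [Module R V] [AddCommGroup W]
    [Module R W] (p : U →ₗ[R] V) (i : V →ₗ[R] U) (q : U →ₗ[R] W) (j : W →ₗ[R] U),
    (∀ x, i (p x) + j (q x) = x) → T U → T V ∨ T W

theorem Spl.equiv {R : Type} [Ring R] {T : ∀ (Y : Type) [AddCommGroup Y] [Module R Y], Prop}
    (h : Spl R T) {U V : Type} [AddCommGroup U] [Module R U] [AddCommGroup V] [Module R V]
    (e : U ≃ₗ[R] V) (hU : T U) : T V :=
  (h.2 U V V e.toLinearMap e.symm.toLinearMap 0 0 (fun x => by simp) hU).elim id id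

theorem dec (R : Type) [Ring R] [IsArtinianRing R] [IsNoetherianRing R] (n : ℕ) :
    ∀ (Y : Type) [AddCommGroup Y] [Module R Y] [Module.Finite R Y], len R Y = n →
    ∃ s : Set (Submodule R Y), s.Finite ∧ (∀ P ∈ s, Indec R P) ∧
      ∀ T : ∀ (Y : Type) [AddCommGroup Y] [Module R Y], Prop, Spl R T → T Y → ∃ P ∈ s, T P := by
  induction n using Nat.strong_induction_on with
  | _ n ih =>
  intro Y _ _ _ hn
  rcases subsingleton_or_nontrivial Y with h0 | h0
  · exact ⟨∅, Set.finite_empty, by simp, fun T hT h => (not_nontrivial Y (hT.1 Y h)).elim⟩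
  by_cases hI : Indec R Y
  · refine ⟨{⊤}, Set.finite_singleton _, ?_, fun T hT h => ⟨⊤, rfl, ?_⟩⟩
    · rintro _ rfl
      exact hI.congr Submodule.topEquiv.symm
    · exact hT.equiv Submodule.topEquiv.symm h
  simp only [Indec, h0, true_and, not_forall, not_or] at hI
  obtain ⟨P, Q, hc, hP, hQ⟩ := hI
  let e := Submodule.prodEquivOfIsCompl P Q hc
  have h1 := e.length_eq
  have := Submodule.nontrivial_iff_ne_bot.2 hP
  have := Submodule.nontrivial_iff_ne_bot.2 hQ
  have h2 := len_pos (R := R) (U := P)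
  have h3 := len_pos (R := R) (U := Q)
  rw [length_prod, ← len_cast, ← len_cast, ← len_cast, hn] at h1
  norm_cast at h1
  obtain ⟨s, s1, s2, s3⟩ := ih _ (by omega) P rfl
  obtain ⟨t, t1, t2, t3⟩ := ih _ (by omega) Q rfl
  refine ⟨Submodule.map P.subtype '' s ∪ Submodule.map Q.subtype '' t,
    (s1.image _).union (t1.image _), ?_, fun T hT h => ?_⟩
  · rintro _ (⟨W, hW, rfl⟩ | ⟨W, hW, rfl⟩)
    · exact (s2 W hW).congr (Submodule.equivMapOfInjective _ P.subtype_injective W)
    · exact (t2 W hW).congr (Submodule.equivMapOfInjective _ Q.subtype_injective W)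
  · rcases hT.2 Y P Q (LinearMap.fst R P Q ∘ₗ e.symm.toLinearMap) P.subtype
      (LinearMap.snd R P Q ∘ₗ e.symm.toLinearMap) Q.subtype (fun x => e.apply_symm_apply x) h
      with h | h
    · obtain ⟨W, hW, h⟩ := s3 T hT h
      exact ⟨_, Or.inl ⟨W, hW, rfl⟩,
        hT.equiv (Submodule.equivMapOfInjective _ P.subtype_injective W) h⟩
    · obtain ⟨W, hW, h⟩ := t3 T hT h
      exact ⟨_, Or.inr ⟨W, hW, rfl⟩,
        hT.equiv (Submodule.equivMapOfInjective _ Q.subtype_injective W) h⟩

theorem smd_split {S N U V W : Type} [Ring S] [AddCommGroup N] [Module S N] [AddCommGroup U]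
    [Module S U] [AddCommGroup V] [Module S V] [AddCommGroup W] [Module S W]
    [IsLocalRing (End S N)] (p : U →ₗ[S] V) (i : V →ₗ[S] U) (q : U →ₗ[S] W) (j : W →ₗ[S] U)
    (h : ∀ x, i (p x) + j (q x) = x) (hU : Smd S N U) : Smd S N V ∨ Smd S N W :=
  (hU.trans ⟨p.prod q, i.coprod j, LinearMap.ext h⟩).prod

theorem smd_nontriv {S N U : Type} [Ring S] [AddCommGroup N] [Module S N] [AddCommGroup U]
    [Module S U] [Nontrivial N] (hU : Smd S N U) : Nontrivial U := by
  obtain ⟨a, b, e⟩ := hU
  exact (LeftInverse.injective (g := b) (f := a) (LinearMap.congr_fun e)).nontrivial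

theorem smd_len {S N U : Type} [Ring S] [AddCommGroup N] [Module S N] [AddCommGroup U]
    [Module S U] (hU : Smd S N U) : length S N ≤ length S U := by
  obtain ⟨a, b, e⟩ := hU
  exact length_le_of_injective a (LeftInverse.injective (LinearMap.congr_fun e))

theorem finMany_of (R : Type) [Ring R] [IsArtinianRing R] [IsNoetherianRing R] (c : ℕ) (Y : Type)
    [AddCommGroup Y] [Module R Y] [Module.Finite R Y]
    (h : ∀ (M : Type) [AddCommGroup M] [Module R M], Module.Finite R M → Indec R M →
      length R M ≤ c → Smd R M Y) : FinMany R fun M _ _ => length R M ≤ c := by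
  obtain ⟨s, s1, s2, s3⟩ := dec R _ Y rfl
  have s4 : (s ∩ {P | length R P ≤ c}).Finite := s1.inter_of_left _
  obtain ⟨n, f, -, hf⟩ := s4.fin_param
  refine ⟨n, fun i => f i, inferInstance, inferInstance, fun i => ?_, fun M _ _ hM hI hc => ?_⟩
  · have : f i ∈ s ∩ {P | length R P ≤ c} := hf ▸ ⟨i, rfl⟩
    exact ⟨inferInstance, s2 _ this.1, this.2⟩
  · have := hI.loc
    have := hI.1
    obtain ⟨P, hP, hs⟩ := s3 (fun U _ _ => Smd R M U) ⟨fun U _ _ => smd_nontriv,
      fun U V W _ _ _ _ _ _ p i q j => smd_split p i q j⟩ (h M hM hI hc)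
    obtain ⟨e⟩ := hs.equiv hI (s2 P hP)
    have : P ∈ Set.range f := hf ▸ ⟨hP, e.length_eq.symm.trans_le hc⟩
    obtain ⟨i, rfl⟩ := this
    exact ⟨i, ⟨e⟩⟩

section
variable {C A B : Type} [CommRing C] [Ring A] [Algebra C A] [Ring B] [Algebra C B]
  (φ : A →ₐ[C] B)

/-- Restriction of scalars. -/
@[nolint unusedArguments]
def Res (_ : A →ₐ[C] B) (U : Type) : Type := U

section
variable (U : Type) [AddCommGroup U] [Module B U]

instance : AddCommGroup (Res φ U) := inferInstanceAs (AddCommGroup U)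
instance : Module B (Res φ U) := inferInstanceAs (Module B U)
instance : Module A (Res φ U) := Module.compHom U (φ : A →+* B)
instance : Module C (Res φ U) := Module.compHom U (algebraMap C B)

variable {U}

theorem res_smul (a : A) (x : Res φ U) : a • x = φ a • x := rfl
theorem res_smulC (c : C) (x : Res φ U) : c • x = algebraMap C B c • x := rfl

instance : IsScalarTower C B (Res φ U) := ⟨fun c b x => by
  rw [res_smulC, Algebra.smul_def, mul_smul]⟩

instance : IsScalarTower C A (Res φ U) := ⟨fun c a x => by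
  rw [res_smul, res_smul, map_smul, smul_assoc]⟩

variable {V : Type} [AddCommGroup V] [Module B V]

/-- Restriction of a map. -/
def Res.map (f : U →ₗ[B] V) : Res φ U →ₗ[A] Res φ V :=
  ⟨f.toAddHom, fun a x => f.map_smul (φ a) x⟩

end

/-- Right multiplication. -/
def rm (b : B) : Res φ B →ₗ[A] Res φ B := Res.map φ (LinearMap.toSpanSingleton B B b)

/-- Coextension of scalars. -/
def Co (M : Type) [AddCommGroup M] [Module A M] : Type := Res φ B →ₗ[A] M

variable (M : Type) [AddCommGroup M] [Module A M]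

instance : AddCommGroup (Co φ M) := inferInstanceAs (AddCommGroup (Res φ B →ₗ[A] M))

variable {φ M} in
/-- The underlying map. -/
def Co.fn (f : Co φ M) : Res φ B →ₗ[A] M := f

instance : Module B (Co φ M) where
  smul b f := (f.fn ∘ₗ rm φ b : Res φ B →ₗ[A] M)
  one_smul f := LinearMap.ext fun x => congrArg f.fn (mul_one (M := B) x)
  mul_smul a b f := LinearMap.ext fun x => congrArg f.fn (mul_assoc (G := B) x a b).symm
  smul_zero _ := rfl
  smul_add _ _ _ := rfl
  add_smul a b f := LinearMap.ext fun x =>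
    (congrArg f.fn (mul_add (R := B) x a b)).trans (map_add f.fn _ _)
  zero_smul f := LinearMap.ext fun x =>
    (congrArg f.fn (mul_zero (M₀ := B) x)).trans (map_zero f.fn)

variable {M} {N : Type} [AddCommGroup N] [Module A N]

/-- Coextension of a map. -/
def Co.map (g : M →ₗ[A] N) : Co φ M →ₗ[B] Co φ N :=
  ⟨⟨fun f => (g ∘ₗ f.fn : Res φ B →ₗ[A] N), fun f f' => LinearMap.comp_add f.fn f'.fn g⟩,
    fun _ _ => rfl⟩

variable [IsArtinianRing C] [Module.Finite C A] [Module.Finite C B]

theorem finRes (U : Type) [AddCommGroup U] [Module B U] [Module.Finite B U] :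
    Module.Finite A (Res φ U) := by
  have : Module.Finite B (Res φ U) := ‹Module.Finite B U›
  have := finC C B (Res φ U)
  exact Module.Finite.of_restrictScalars_finite C A _

theorem lenRes (U : Type) [AddCommGroup U] [Module B U] [Module.Finite B U] {c : ℕ}
    (h : length B U ≤ c) : length A (Res φ U) ≤ (c * len C B : ℕ) := by
  have : Module.Finite B (Res φ U) := ‹Module.Finite B U›
  have := finC C B (Res φ U)
  have h1 := len_le_mul C (A := B) (Res φ U) h
  have h2 := Submodule.length_le_length_restrictScalars C (⊤ : Submodule A (Res φ U))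
  rw [Submodule.restrictScalars_top, length_top, length_top, ← len_cast (R := C)] at h2
  exact h2.trans (by exact_mod_cast h1)

theorem finCo [Module.Finite A M] : Module.Finite B (Co φ M) := by
  let _ : Module C M := Module.compHom M (algebraMap C A)
  have : IsScalarTower C A M := IsScalarTower.of_compHom C A M
  have := finRes φ B
  let _ : Module C (Co φ M) := inferInstanceAs (Module C (Res φ B →ₗ[A] M))
  have : Module.Finite C (Co φ M) := homFin
  have : IsScalarTower C B (Co φ M) := ⟨fun c b f => LinearMap.ext fun x => by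
    change f.fn (rm φ (c • b) x) = algebraMap C A c • f.fn (rm φ b x)
    rw [← map_smul]
    refine congrArg f.fn ?_
    change (id x : B) * (c • b) = φ (algebraMap C A c) * ((id x : B) * b)
    rw [AlgHom.commutes, ← Algebra.smul_def, mul_smul_comm]⟩
  exact Module.Finite.of_restrictScalars_finite C B _

theorem bdd (hf : ∀ (M : Type) [AddCommGroup M] [Module A M], Smd A M (Res φ (Co φ M)))
    (h : BddA B) : BddA A := by
  have := artin C A
  have := artin C B
  have := noeth C A
  have := noeth C B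
  obtain ⟨c, hc⟩ := h
  refine ⟨c * len C B, fun M _ _ hM hI => ?_⟩
  have := hI.loc
  have := hI.1
  have := finCo φ (M := M)
  obtain ⟨s, -, s2, s3⟩ := dec B _ (Co φ M) rfl
  obtain ⟨P, hP, hs⟩ := s3 (fun U _ _ => Smd A M (Res φ U)) ⟨fun U _ _ h =>
    smd_nontriv (U := Res φ U) h, fun U V W _ _ _ _ _ _ p i q j h =>
      smd_split (Res.map φ p) (Res.map φ i) (Res.map φ q) (Res.map φ j) h⟩ (hf M)
  exact (smd_len hs).trans (lenRes φ P (hc P inferInstance (s2 P hP)))

theorem bf (hs : ∀ (U : Type) [AddCommGroup U] [Module B U], Smd B U (Co φ (Res φ U)))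
    (h : BF A) : BF B := fun c => by
  have := artin C A
  have := artin C B
  have := noeth C A
  have := noeth C B
  obtain ⟨n, X, _, _, h1, h2⟩ := h (c * len C B)
  have := fun i => (h1 i).1
  have := fun i => finCo φ (M := X i)
  refine finMany_of B c (∀ i, Co φ (X i)) fun U _ _ hU hI hc => ?_
  have := hI.loc
  have := hI.1
  have := finRes φ U
  obtain ⟨s, -, s2, s3⟩ := dec A _ (Res φ U) rfl
  have hT : Spl A fun Y _ _ => Smd B U (Co φ Y) := ⟨fun Y _ _ h => by
      obtain ⟨f, g, e⟩ := smd_nontriv h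
      by_contra hn
      rw [not_nontrivial_iff_subsingleton] at hn
      exact e (LinearMap.ext fun x => Subsingleton.elim _ _),
    fun U V W _ _ _ _ _ _ p i q j h => smd_split (Co.map φ p) (Co.map φ i) (Co.map φ q)
      (Co.map φ j) fun f => LinearMap.ext fun x => h _⟩
  obtain ⟨P, hP, h3⟩ := s3 _ hT (hs U)
  obtain ⟨i, ⟨e⟩⟩ := h2 P inferInstance (s2 P hP) ((len_sub_le P).trans (lenRes φ U hc))
  exact (hT.equiv e h3).trans (Smd.single (X := fun i => Co φ (X i)) i)

omit [IsArtinianRing C] [Module.Finite C A] [Module.Finite C B] in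
theorem free_of (L : B →+ A) (w : B) (h1 : ∀ a x, L (φ a * x) = a * L x)
    (h2 : ∀ a x, L (x * φ a) = L x * a) (h3 : ∀ a, w * φ a = φ a * w) (h4 : L w = 1)
    (M : Type) [AddCommGroup M] [Module A M] : Smd A M (Res φ (Co φ M)) := by
  let i : M → (Res φ B →ₗ[A] M) := fun m =>
    ⟨⟨fun x => L x • m, fun x y => by rw [← add_smul]; exact congrArg (· • m) (L.map_add x y)⟩,
      fun a x => by rw [RingHom.id_apply, ← mul_smul]; exact congrArg (· • m) (h1 a x)⟩
  refine ⟨⟨⟨i, fun m m' => LinearMap.ext fun x => smul_add (L x) m m'⟩,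
      fun a m => LinearMap.ext fun x => ?_⟩,
    ⟨⟨fun f => Co.fn (φ := φ) f w, fun _ _ => rfl⟩, fun a f => ?_⟩, LinearMap.ext fun m => ?_⟩
  · change L x • a • m = L ((id x : B) * φ a) • m
    rw [h2, mul_smul]; rfl
  · change Co.fn (φ := φ) f (w * φ a : B) = a • Co.fn (φ := φ) f w
    rw [h3, ← map_smul]; rfl
  · change L w • m = m
    rw [h4, one_smul]

end

section
variable (C C' A : Type) [CommRing C] [CommRing C'] [Algebra C C'] [Ring A] [Algebra C A]

theorem free_t [Nontrivial C'] [Module.Free C C'] (M : Type) [AddCommGroup M] [Module A M] :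
    Smd A M (Res (Algebra.TensorProduct.includeRight : A →ₐ[C] C' ⊗[C] A)
      (Co (Algebra.TensorProduct.includeRight : A →ₐ[C] C' ⊗[C] A) M)) := by
  let b := Module.Free.chooseBasis C C'
  obtain ⟨i⟩ := b.index_nonempty
  let L : C' ⊗[C] A →ₗ[C] A := TensorProduct.lift ((LinearMap.lsmul C A) ∘ₗ b.coord i)
  have hL : ∀ c a, L (c ⊗ₜ a) = b.coord i c • a := fun _ _ => rfl
  refine free_of _ L.toAddMonoidHom (b i ⊗ₜ 1) (fun a x => ?_) (fun a x => ?_) (fun a => ?_) ?_ M
  · change L _ = a * L x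
    induction x with
    | zero => simp
    | add x y hx hy => rw [mul_add, map_add, map_add, hx, hy, mul_add]
    | tmul c a' => simp [hL]
  · change L _ = L x * a
    induction x with
    | zero => simp
    | add x y hx hy => rw [add_mul, map_add, map_add, hx, hy, add_mul]
    | tmul c a' => simp [hL]
  · simp
  · change L (b i ⊗ₜ 1) = 1
    simp [hL]

theorem sep_t [Module.Finite C C'] [Algebra.FormallyUnramified C C'] (U : Type) [AddCommGroup U]
    [Module (C' ⊗[C] A) U] :
    Smd (C' ⊗[C] A) U (Co (Algebra.TensorProduct.includeRight : A →ₐ[C] C' ⊗[C] A)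
      (Res (Algebra.TensorProduct.includeRight : A →ₐ[C] C' ⊗[C] A) U)) := by
  set φ : A →ₐ[C] C' ⊗[C] A := Algebra.TensorProduct.includeRight with hφ
  obtain ⟨t, t1, t2⟩ := (Algebra.FormallyUnramified.iff_exists_tensorProduct (R := C) (S := C')).1
    inferInstance
  let r : C' ⊗[C] A → Res φ (C' ⊗[C] A) := id
  have fC : ∀ (f : Co φ (Res φ U)) (c : C) (x : C' ⊗[C] A), f.fn (r (c • x)) = c • f.fn (r x) :=
    fun f c x => by
      rw [← algebraMap_smul A c (f.fn (r x)), ← map_smul]
      refine congrArg f.fn ?_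
      change c • x = φ (algebraMap C A c) * x
      rw [AlgHom.commutes, Algebra.smul_def]
  have fA : ∀ (f : Co φ (Res φ U)) (x y : C' ⊗[C] A), f.fn (r (x + y)) = f.fn (r x) + f.fn (r y) :=
    fun f x y => f.fn.map_add _ _
  let β : Co φ (Res φ U) → C' ⊗[C] C' →ₗ[C] Res φ U := fun f =>
    TensorProduct.lift (LinearMap.mk₂ C
      (fun x y => ((x ⊗ₜ 1 : C' ⊗[C] A)) • f.fn (r (y ⊗ₜ 1)))
      (fun x x' y => by rw [add_tmul, add_smul])
      (fun c x y => by rw [← smul_tmul', smul_assoc])
      (fun x y y' => by rw [add_tmul, fA, smul_add])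
      (fun c x y => by
        rw [← smul_tmul', fC, res_smulC, res_smulC, smul_smul, smul_smul, Algebra.commutes]))
  have hβ : ∀ f x y, β f (x ⊗ₜ y) = ((x ⊗ₜ 1 : C' ⊗[C] A)) • f.fn (r (y ⊗ₜ 1)) := fun _ _ _ => rfl
  have b1 : ∀ f g z, β (f + g) z = β f z + β g z := fun f g z => by
    have : β (f + g) = β f + β g := TensorProduct.ext' fun x y => smul_add _ _ _
    rw [this]; rfl
  have b0 : ∀ z, β 0 z = 0 := fun z => by simpa using b1 0 0 z
  have b2 : ∀ f (c : C') (a : A) z, β (((c ⊗ₜ a : C' ⊗[C] A)) • f) z =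
      φ a • β f (((1 : C') ⊗ₜ c) * z) := fun f c a z => by
    induction z with
    | zero => simp
    | add x y hx hy => rw [mul_add, map_add, map_add, hx, hy, smul_add]
    | tmul x y =>
      rw [Algebra.TensorProduct.tmul_mul_tmul, hβ, hβ, one_mul]
      have e : (((c ⊗ₜ a : C' ⊗[C] A)) • f).fn (r (y ⊗ₜ 1)) = φ a • f.fn (r ((c * y) ⊗ₜ 1)) := by
        rw [← res_smul, ← map_smul]
        refine congrArg f.fn ?_
        change (y ⊗ₜ 1 : C' ⊗[C] A) * (c ⊗ₜ a) = φ a * ((c * y) ⊗ₜ 1)
        simp [hφ, mul_comm]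
      rw [e, smul_smul, smul_smul]
      congr 1
      simp [hφ]
  have b3 : ∀ f (c : C') z, β f ((c ⊗ₜ (1 : C')) * z) = ((c ⊗ₜ 1 : C' ⊗[C] A)) • β f z :=
    fun f c z => by
      induction z with
      | zero => simp
      | add x y hx hy => rw [mul_add, map_add, map_add, hx, hy, smul_add]
      | tmul x y =>
        rw [Algebra.TensorProduct.tmul_mul_tmul, hβ, hβ, one_mul, smul_smul,
          Algebra.TensorProduct.tmul_mul_tmul, one_mul]
  let η : U →ₗ[C' ⊗[C] A] Co φ (Res φ U) :=
    ⟨⟨fun u => (Res.map φ (LinearMap.toSpanSingleton _ U u) : Res φ _ →ₗ[A] Res φ U),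
      fun u v => LinearMap.ext fun x => smul_add (id x : C' ⊗[C] A) u v⟩,
      fun b u => LinearMap.ext fun x => (mul_smul (id x : C' ⊗[C] A) b u).symm⟩
  have b4 : ∀ (u : Res φ U) z, β (η u) z =
      ((Algebra.TensorProduct.lmul' C z ⊗ₜ 1 : C' ⊗[C] A)) • u := fun u z => by
    induction z with
    | zero => simp
    | add x y hx hy => rw [map_add, map_add, hx, hy, add_tmul, add_smul]
    | tmul x y =>
      rw [hβ, Algebra.TensorProduct.lmul'_apply_tmul]
      change ((x ⊗ₜ 1 : C' ⊗[C] A)) • ((y ⊗ₜ 1 : C' ⊗[C] A)) • u = _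
      rw [smul_smul, Algebra.TensorProduct.tmul_mul_tmul, one_mul]
  have b5 : ∀ (b : C' ⊗[C] A) f, β (b • f) t = b • β f t := fun b f => by
    induction b with
    | zero => rw [zero_smul, zero_smul, b0]
    | add x y hx hy => rw [add_smul, add_smul, b1, hx, hy]
    | tmul c a =>
      rw [b2, sub_eq_zero.1 ((sub_mul _ _ t).symm.trans (t1 c)), b3, smul_smul]
      congr 1
      simp [hφ]
  refine ⟨η, ⟨⟨fun f => β f t, fun f g => b1 f g t⟩, b5⟩, LinearMap.ext fun u => ?_⟩
  refine (b4 u t).trans ?_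
  rw [t2]
  exact one_smul (C' ⊗[C] A) u

end

end BaseMA

theorem baseM : SBaseM := fun C C' A _ _ _ _ _ _ _ _ _ _ _ =>
  ⟨BaseMA.bf _ (BaseMA.sep_t C C' A), BaseMA.bdd _ (BaseMA.free_t C C' A)⟩

end Pool.Agent.MP_bd94e8_al.H83A
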